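import Mathlib
import Pool.Agent.X51.HTd

namespace Pool.Agent.Results.MP_6dcedf_co.SimpleWalkCounterexample
open Finset Pool.Agent.X51.HT

section Defs
variable {V : Type} [Fintype V]

open scoped Classical in
/-- Transition probabilities of the simple random walk on `G`. -/
noncomputable def P (G : SimpleGraph V) (v u : V) : ℝ :=
  if G.Adj v u then 1 / (G.degree v : ℝ) else 0

open scoped Classical in
/-- The stationary distribution `π(v) = deg v / (2 |E|)`. -/
noncomputable def stat (G : SimpleGraph V) (v : V) : ℝ :=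
  (G.degree v : ℝ) / (2 * (G.edgeFinset.card : ℝ))

open scoped Classical in
/-- `(∑_{v ∈ S} π(v) (∑_{u ∉ S} P(v,u))^{1/2}) / π(S)`. -/
noncomputable def ratio (G : SimpleGraph V) (S : Finset V) : ℝ :=
  (∑ v ∈ S, stat G v * Real.sqrt (∑ u ∈ Sᶜ, P G v u)) / ∑ v ∈ S, stat G v

/-- `φ_{1/2}(G)`, the least ratio over nonempty `S` with `π(S) ≤ 1/2`. -/
noncomputable def phiHalf (G : SimpleGraph V) : ℝ :=
  sInf {r | ∃ S : Finset V, S.Nonempty ∧ ∑ v ∈ S, stat G v ≤ 1 / 2 ∧ r = ratio G S}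

/-- `μ` is an eigenvalue of `I - P`. -/
def IsEigenvalue (G : SimpleGraph V) (μ : ℝ) : Prop :=
  ∃ f : V → ℝ, f ≠ 0 ∧ ∀ v, f v - ∑ u, P G v u * f u = μ * f v

/-- The least nonzero eigenvalue of `I - P`; for connected `G` the eigenvalue `0` is simple and all
eigenvalues are real and nonnegative, so this is the second smallest eigenvalue `λ₂(G)`. -/
noncomputable def lambda2 (G : SimpleGraph V) : ℝ := sInf {μ | μ ≠ 0 ∧ IsEigenvalue G μ}

end Defs

open scoped Classical in
lemma eig_nonneg {V : Type} [Fintype V] (G : SimpleGraph V) (μ : ℝ)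
    (h : IsEigenvalue G μ) : 0 ≤ μ := by
  obtain ⟨f, hf, hv⟩ := h
  obtain ⟨w, hw⟩ : ∃ w, f w ≠ 0 := by
    by_contra hc
    push Not at hc
    exact hf (funext hc)
  have : Nonempty V := ⟨w⟩
  obtain ⟨m, hm⟩ := Finite.exists_max (fun v => |f v|)
  have hpos : 0 < |f m| := lt_of_lt_of_le (abs_pos.mpr hw) (hm w)
  have hP0 : ∀ u, 0 ≤ P G m u := by intro u; unfold P; split_ifs <;> positivity
  have hPs : ∑ u, P G m u ≤ 1 := by
    unfold P
    rw [← Finset.sum_filter, Finset.sum_const, nsmul_eq_mul, ← SimpleGraph.neighborFinset_eq_filter,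
      SimpleGraph.card_neighborFinset_eq_degree]
    by_cases hd : (G.degree m : ℝ) = 0
    · rw [hd]; simp
    · field_simp; exact le_refl _
  have h1 : |∑ u, P G m u * f u| ≤ |f m| := by
    calc _ ≤ ∑ u, |P G m u * f u| := Finset.abs_sum_le_sum_abs _ _
      _ ≤ ∑ u, P G m u * |f m| := by
          refine Finset.sum_le_sum fun u _ => ?_
          rw [abs_mul, abs_of_nonneg (hP0 u)]
          exact mul_le_mul_of_nonneg_left (hm u) (hP0 u)
      _ = (∑ u, P G m u) * |f m| := by rw [Finset.sum_mul]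
      _ ≤ 1 * |f m| := mul_le_mul_of_nonneg_right hPs hpos.le
      _ = |f m| := one_mul _
  have h2 : ∑ u, P G m u * f u = (1 - μ) * f m := by
    have := hv m
    linarith
  rw [h2, abs_mul] at h1
  have h3 : |1 - μ| ≤ 1 := by
    by_contra hcon
    push Not at hcon
    nlinarith
  have := (abs_le.mp h3).2
  linarith

section Graph
variable {L : ℕ}

open scoped Classical in
lemma degree_eq (v : ZMod (2 ^ L) × ZMod (4 ^ L)) : ((GG L).degree v : ℝ) = (T L).card := by
  have h := sum_adj v (fun _ => (1 : ℝ))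
  rw [← Finset.sum_filter, Finset.sum_const, nsmul_eq_mul, mul_one,
    ← SimpleGraph.neighborFinset_eq_filter, SimpleGraph.card_neighborFinset_eq_degree] at h
  rw [h]
  simp

open scoped Classical in
lemma ratio_ge (hL : 0 < L) (S : Finset (ZMod (2 ^ L) × ZMod (4 ^ L))) (hne : S.Nonempty)
    (hS : ∑ v ∈ S, stat (GG L) v ≤ 1 / 2) : (L : ℝ) / (16 * 2 ^ L) ≤ ratio (GG L) S := by
  have hT0 : (0 : ℝ) < (T L).card := lt_of_lt_of_le (by positivity) (card_T_ge hL)
  have hE : 2 * ((GG L).edgeFinset.card : ℝ) = 2 ^ L * 4 ^ L * (T L).card := by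
    have h := (GG L).sum_degrees_eq_twice_card_edges
    have h' : (∑ v, ((GG L).degree v : ℝ)) = 2 * ((GG L).edgeFinset.card : ℝ) := by
      exact_mod_cast h
    rw [← h']
    simp_rw [degree_eq]
    rw [Finset.sum_const, nsmul_eq_mul, Finset.card_univ, Fintype.card_prod, ZMod.card, ZMod.card]
    push_cast
    ring
  have hst : ∀ v, stat (GG L) v = 1 / (2 ^ L * 4 ^ L) := by
    intro v
    unfold stat
    rw [degree_eq, hE]
    field_simp
  have hSc : (0 : ℝ) < S.card := by exact_mod_cast hne.card_pos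
  have hout : ∀ v, ∑ u ∈ Sᶜ, P (GG L) v u = out S v / (T L).card := by
    intro v
    unfold out
    rw [← sum_adj v (fun u => 1 - chi S u), Finset.sum_div]
    have h1 : ∑ u ∈ Sᶜ, P (GG L) v u = ∑ u, (if u ∈ Sᶜ then P (GG L) v u else 0) := by
      rw [Finset.sum_ite_mem, Finset.univ_inter]
    rw [h1]
    refine Finset.sum_congr rfl fun u _ => ?_
    unfold P chi
    rw [degree_eq]
    by_cases hu : u ∈ S <;> by_cases ha : (GG L).Adj v u <;> simp [hu, ha]
  have hhalf : 2 * (S.card : ℝ) ≤ 2 ^ L * 4 ^ L := by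
    simp_rw [hst] at hS
    rw [Finset.sum_const, nsmul_eq_mul, mul_one_div, div_le_div_iff₀ (by positivity) (by norm_num)]
      at hS
    linarith
  have hc := cost_ge S hL hhalf
  have hr : ratio (GG L) S = (∑ v ∈ S, 1 / (2 ^ L * 4 ^ L) * Real.sqrt (out S v / (T L).card)) /
      ∑ v ∈ S, (1 / (2 ^ L * 4 ^ L) : ℝ) := by
    unfold ratio
    congr 1
    · refine Finset.sum_congr rfl fun v _ => ?_
      rw [hst, ← hout v]
      congr 2
      refine Finset.sum_congr ?_ fun _ _ => rfl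
      ext u
      simp only [Finset.mem_compl]
    · exact Finset.sum_congr rfl fun v _ => hst v
  rw [hr]
  rw [← Finset.mul_sum, Finset.sum_const, nsmul_eq_mul, le_div_iff₀ (by positivity)]
  calc (L : ℝ) / (16 * 2 ^ L) * (S.card * (1 / (2 ^ L * 4 ^ L)))
      = 1 / (2 ^ L * 4 ^ L) * ((L : ℝ) / (16 * 2 ^ L) * S.card) := by ring
    _ ≤ _ := mul_le_mul_of_nonneg_left hc (by positivity)

open scoped Classical in
lemma phi_ge (hL : 0 < L) : (L : ℝ) / (16 * 2 ^ L) ≤ phiHalf (GG L) := by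
  have hT0 : (0 : ℝ) < (T L).card := lt_of_lt_of_le (by positivity) (card_T_ge hL)
  unfold phiHalf
  refine le_csInf ?_ ?_
  · refine ⟨ratio (GG L) {(0, 0)}, {(0, 0)}, Finset.singleton_nonempty _, ?_, rfl⟩
    rw [Finset.sum_singleton]
    unfold stat
    rw [degree_eq]
    have h := (GG L).sum_degrees_eq_twice_card_edges
    have h' : (∑ v, ((GG L).degree v : ℝ)) = 2 * ((GG L).edgeFinset.card : ℝ) := by
      exact_mod_cast h
    rw [← h']
    simp_rw [degree_eq]
    rw [Finset.sum_const, nsmul_eq_mul, Finset.card_univ, Fintype.card_prod, ZMod.card, ZMod.card]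
    push_cast
    rw [div_le_div_iff₀ (by positivity) (by norm_num)]
    have h2 : (2 : ℝ) ≤ 2 ^ L := by
      calc (2 : ℝ) = 2 ^ 1 := (pow_one _).symm
        _ ≤ 2 ^ L := pow_le_pow_right₀ (by norm_num) hL
    have h4 : (1 : ℝ) ≤ 4 ^ L := one_le_pow₀ (by norm_num)
    have h5 : (2 : ℝ) ≤ 2 ^ L * 4 ^ L := by nlinarith
    nlinarith
  · rintro r ⟨S, hne, hS, rfl⟩
    exact ratio_ge hL S hne hS

open scoped Classical in
lemma lambda_le (hL : 0 < L) : lambda2 (GG L) ≤ 4 * Real.pi ^ 2 * L / 4 ^ L := by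
  have hT := card_T_ge hL
  have hp : (0 : ℝ) < 4 ^ L := by positivity
  have hT0 : (0 : ℝ) < (T L).card := lt_of_lt_of_le hp hT
  set μ := (∑ t ∈ T L, (1 - cc t.1)) / (T L).card with hμ
  have hmem : μ ∈ {μ | μ ≠ 0 ∧ IsEigenvalue (GG L) μ} := by
    refine ⟨(div_pos (gap_pos hL) hT0).ne', fun v => cc v.1, ?_, ?_⟩
    · intro h
      have := congrFun h (0, 0)
      simp [cc_zero] at this
    · intro v
      have h1 : ∑ u, P (GG L) v u * cc u.1 = (∑ t ∈ T L, cc (v + t).1) / (T L).card := by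
        rw [← sum_adj v (fun u => cc u.1), Finset.sum_div]
        refine Finset.sum_congr rfl fun u _ => ?_
        unfold P
        rw [degree_eq]
        by_cases ha : (GG L).Adj v u <;> simp [ha, div_eq_inv_mul]
      rw [h1]
      simp_rw [Prod.fst_add]
      rw [sum_cc, hμ, Finset.sum_sub_distrib, Finset.sum_const, nsmul_eq_mul, mul_one]
      field_simp
  have hle : lambda2 (GG L) ≤ μ :=
    csInf_le ⟨0, fun x hx => eig_nonneg _ _ hx.2⟩ hmem
  refine hle.trans ?_
  rw [hμ]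
  have h0 : 0 ≤ 4 * Real.pi ^ 2 * L := by positivity
  exact div_le_div₀ h0 gap_le hp hT

end Graph

/-- The upper Houdré–Tetali inequality fails for simple random walks: there is no constant `C` with
`φ_{1/2}(G) ≤ C √λ₂(G)` for all finite connected simple graphs `G` on at least two vertices. -/
theorem result : ¬ ∃ C : ℝ, ∀ (V : Type) [Fintype V] (G : SimpleGraph V), G.Connected →
    2 ≤ Fintype.card V → phiHalf G ≤ C * Real.sqrt (lambda2 G) := by
  rintro ⟨C, hC⟩
  obtain ⟨L, hLC⟩ := exists_nat_gt ((32 * Real.pi * |C|) ^ 2 + 1)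
  have hL : 0 < L := by
    rcases Nat.eq_zero_or_pos L with h | h
    · subst h
      have : (0 : ℝ) ≤ (32 * Real.pi * |C|) ^ 2 := sq_nonneg _
      simp at hLC
      linarith
    · exact h
  have h := hC (ZMod (2 ^ L) × ZMod (4 ^ L)) (GG L) (connected hL) (by
    rw [Fintype.card_prod, ZMod.card, ZMod.card]
    have h1 : 2 ≤ 2 ^ L := by
      calc 2 = 2 ^ 1 := rfl
        _ ≤ 2 ^ L := Nat.pow_le_pow_right (by norm_num) hL
    have h2 : 1 ≤ 4 ^ L := Nat.one_le_pow _ _ (by norm_num)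
    nlinarith)
  have h1 := phi_ge hL
  have h2 := lambda_le hL
  have hs : Real.sqrt (lambda2 (GG L)) ≤ 2 * Real.pi * Real.sqrt L / 2 ^ L := by
    rw [Real.sqrt_le_left (by positivity)]
    refine h2.trans (le_of_eq ?_)
    have e2 : (4 : ℝ) ^ L = (2 ^ L) ^ 2 := by rw [← pow_mul, mul_comm, pow_mul]; norm_num
    rw [e2, div_pow, mul_pow, mul_pow, Real.sq_sqrt (Nat.cast_nonneg L)]
    ring
  have h3 : (L : ℝ) / (16 * 2 ^ L) ≤ |C| * (2 * Real.pi * Real.sqrt L / 2 ^ L) := by
    calc _ ≤ _ := h1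
      _ ≤ _ := h
      _ ≤ |C| * Real.sqrt (lambda2 (GG L)) :=
        mul_le_mul_of_nonneg_right (le_abs_self C) (Real.sqrt_nonneg _)
      _ ≤ _ := mul_le_mul_of_nonneg_left hs (abs_nonneg C)
  have hp : (0 : ℝ) < 2 ^ L := by positivity
  have h4 : (L : ℝ) ≤ 32 * Real.pi * |C| * Real.sqrt L := by
    have h5 : (L : ℝ) / (16 * 2 ^ L) * (16 * 2 ^ L) ≤
        |C| * (2 * Real.pi * Real.sqrt L / 2 ^ L) * (16 * 2 ^ L) :=
      mul_le_mul_of_nonneg_right h3 (by positivity)
    have e1 : (L : ℝ) / (16 * 2 ^ L) * (16 * 2 ^ L) = L := by field_simp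
    have e2 : |C| * (2 * Real.pi * Real.sqrt L / 2 ^ L) * (16 * 2 ^ L) =
        32 * Real.pi * |C| * Real.sqrt L := by field_simp; ring
    rw [e1, e2] at h5
    exact h5
  have hLpos : (0 : ℝ) < L := by exact_mod_cast hL
  have hsq : Real.sqrt L * Real.sqrt L = L := Real.mul_self_sqrt hLpos.le
  have hsp : 0 < Real.sqrt L := Real.sqrt_pos.mpr hLpos
  have h6 : Real.sqrt L ≤ 32 * Real.pi * |C| := by
    have : Real.sqrt L * Real.sqrt L ≤ 32 * Real.pi * |C| * Real.sqrt L := by rw [hsq]; exact h4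
    exact le_of_mul_le_mul_right this hsp
  have h7 : (L : ℝ) ≤ (32 * Real.pi * |C|) ^ 2 := by
    rw [← hsq, sq]
    exact mul_le_mul h6 h6 hsp.le (by positivity)
  linarith

end Pool.Agent.Results.MP_6dcedf_co.SimpleWalkCounterexample
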